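import Pool.Agent.H744R2.Falc.Cone

/-!
Two circles of the same radius, centred in a small disc, meet a far small disc in a small set.
-/

set_option autoImplicit false

namespace Pool.Agent.TH578.FP

open MeasureTheory Set Metric
open scoped ENNReal
open Pool.Agent.H744R2.Falc Pool.Agent.H744R2.Falc.ConeAux

theorem le_of_sq_le_sq' {a b : ℝ} (h : a ^ 2 ≤ b ^ 2) (hb : 0 ≤ b) : a ≤ b :=
  (le_abs_self a).trans (abs_le_of_sq_le_sq h hb)

theorem det_mul_norm_le (p q w : E2) :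
    |det2 p q| * ‖w‖ ≤ |inner ℝ w p| * ‖q‖ + |inner ℝ w q| * ‖p‖ := by
  have h : (det2 p q) ^ 2 * ‖w‖ ^ 2 = (inner ℝ w p) ^ 2 * ‖q‖ ^ 2 + (inner ℝ w q) ^ 2 * ‖p‖ ^ 2
      - 2 * ((inner ℝ w p) * (inner ℝ w q)) * (inner ℝ p q) := by
    rw [normsq_E2, normsq_E2, normsq_E2, inner_E2, inner_E2, inner_E2]
    unfold det2
    ring
  have hcs : |inner ℝ p q| ≤ ‖p‖ * ‖q‖ := abs_real_inner_le_norm p q
  refine le_of_sq_le_sq' ?_ (by positivity)
  have e1 : (|det2 p q| * ‖w‖) ^ 2 = (det2 p q) ^ 2 * ‖w‖ ^ 2 := by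
    rw [mul_pow, sq_abs]
  have e2 : (|inner ℝ w p| * ‖q‖ + |inner ℝ w q| * ‖p‖) ^ 2 =
      (inner ℝ w p) ^ 2 * ‖q‖ ^ 2 + (inner ℝ w q) ^ 2 * ‖p‖ ^ 2 +
        2 * |(inner ℝ w p) * (inner ℝ w q)| * (‖p‖ * ‖q‖) := by
    rw [abs_mul, ← sq_abs (inner ℝ w p), ← sq_abs (inner ℝ w q)]
    ring
  rw [e1, e2, h]
  have h3 : -(((inner ℝ w p) * (inner ℝ w q)) * (inner ℝ p q)) ≤
      |(inner ℝ w p) * (inner ℝ w q)| * (‖p‖ * ‖q‖) := by
    calc -(((inner ℝ w p) * (inner ℝ w q)) * (inner ℝ p q))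
        ≤ |((inner ℝ w p) * (inner ℝ w q)) * (inner ℝ p q)| := neg_le_abs _
      _ = |(inner ℝ w p) * (inner ℝ w q)| * |inner ℝ p q| := abs_mul _ _
      _ ≤ _ := by gcongr
  linarith

theorem dist_sq_E2 (x y : E2) : dist x y ^ 2 = (x 0 - y 0) ^ 2 + (x 1 - y 1) ^ 2 := by
  rw [dist_eq_norm, normsq_E2]
  simp

theorem geo (a b : E2) (r : ℝ) (hr : 0 < r) (hab : dist a b = 20 * r) {x x' y y' : E2}
    (hx : x ∈ closedBall a r) (hx' : x' ∈ closedBall a r) (hy : y ∈ closedBall b r)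
    (hy' : y' ∈ closedBall b r) (ρ δ : ℝ) (hδ : 0 ≤ δ)
    (h1 : |dist x y ^ 2 - ρ| ≤ δ) (h2 : |dist x y' ^ 2 - ρ| ≤ δ)
    (h3 : |dist x' y ^ 2 - ρ| ≤ δ) (h4 : |dist x' y' ^ 2 - ρ| ≤ δ) :
    dist x x' * dist y y' ≤ 3 * δ := by
  rw [mem_closedBall] at hx hx' hy hy'
  set h : ℝ := dist y y' with hh
  have h0 : 0 ≤ h := dist_nonneg
  have hxx : dist x x' ≤ 2 * r := by
    have := dist_triangle_right x x' a
    linarith
  have hyy : h ≤ 2 * r := by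
    have := dist_triangle_right y y' b
    linarith
  rcases lt_or_ge (r * h) δ with hc | hc
  · calc dist x x' * h ≤ 2 * r * h := by gcongr
      _ ≤ 3 * δ := by nlinarith
  set w : E2 := x - x' with hw
  set p : E2 := y' - y with hp
  set g : E2 := (x - y) + (x' - y) with hg
  have hwn : dist x x' = ‖w‖ := dist_eq_norm _ _
  have hpn : h = ‖p‖ := by rw [hh, dist_comm, dist_eq_norm]
  rw [abs_le] at h1 h2 h3 h4
  have A : |inner ℝ w p| ≤ 2 * δ := by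
    have e : 2 * inner ℝ w p = (dist x y ^ 2 - dist x y' ^ 2) - (dist x' y ^ 2 - dist x' y' ^ 2) := by
      rw [inner_E2, dist_sq_E2, dist_sq_E2, dist_sq_E2, dist_sq_E2, hw, hp]
      simp only [PiLp.sub_apply]
      ring
    rw [abs_le]
    constructor <;> linarith [h1.1, h1.2, h2.1, h2.2, h3.1, h3.2, h4.1, h4.2]
  have B : |inner ℝ w g| ≤ 2 * δ := by
    have e : inner ℝ w g = dist x y ^ 2 - dist x' y ^ 2 := by
      rw [inner_E2, dist_sq_E2, dist_sq_E2, hw, hg]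
      simp only [PiLp.sub_apply, PiLp.add_apply]
      ring
    rw [abs_le]
    constructor <;> linarith [h1.1, h1.2, h3.1, h3.2]
  have Cc : |inner ℝ p g| ≤ 6 * r * h := by
    have e : inner ℝ p g = (dist x y ^ 2 - dist x y' ^ 2) - inner ℝ w p + ‖p‖ ^ 2 := by
      rw [inner_E2, inner_E2, dist_sq_E2, dist_sq_E2, hw, hg, normsq_E2, hp]
      simp only [PiLp.sub_apply, PiLp.add_apply]
      ring
    rw [abs_le] at A
    have hp2 : ‖p‖ ^ 2 ≤ 2 * r * h := by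
      rw [← hpn, sq]
      gcongr
    have hp3 : 0 ≤ ‖p‖ ^ 2 := by positivity
    rw [abs_le]
    constructor <;> nlinarith [h1.1, h1.2, h2.1, h2.2, A.1, A.2]
  -- the length of `g`
  have hgeq : g = (2 : ℝ) • (a - b) + ((x - a) + (x' - a) - (2 : ℝ) • (y - b)) := by
    rw [hg]; module
  have hrest : ‖(x - a) + (x' - a) - (2 : ℝ) • (y - b)‖ ≤ 4 * r := by
    calc ‖(x - a) + (x' - a) - (2 : ℝ) • (y - b)‖
        ≤ ‖(x - a) + (x' - a)‖ + ‖(2 : ℝ) • (y - b)‖ := norm_sub_le _ _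
      _ ≤ (‖x - a‖ + ‖x' - a‖) + 2 * ‖y - b‖ := by
          gcongr
          · exact norm_add_le _ _
          · rw [norm_smul]; simp
      _ ≤ 4 * r := by
          rw [← dist_eq_norm, ← dist_eq_norm, ← dist_eq_norm]
          linarith
  have hab2 : ‖(2 : ℝ) • (a - b)‖ = 40 * r := by
    rw [norm_smul, ← dist_eq_norm, hab]
    simp; ring
  have hg1 : 36 * r ≤ ‖g‖ := by
    have := norm_sub_norm_le ((2 : ℝ) • (a - b)) (-((x - a) + (x' - a) - (2 : ℝ) • (y - b)))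
    rw [sub_neg_eq_add, ← hgeq, norm_neg, hab2] at this
    linarith
  have hg2 : ‖g‖ ≤ 44 * r := by
    rw [hgeq]
    refine (norm_add_le _ _).trans ?_
    rw [hab2]
    linarith
  have D : 35 * r * h ≤ |det2 p g| := by
    have hl := lagrange p g
    rw [← hpn] at hl
    have i1 : (inner ℝ p g) ^ 2 ≤ (6 * r * h) ^ 2 := by
      rw [← sq_abs]
      exact pow_le_pow_left₀ (abs_nonneg _) Cc 2
    have i2 : (36 * r) ^ 2 ≤ ‖g‖ ^ 2 := pow_le_pow_left₀ (by positivity) hg1 2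
    have i3 : h ^ 2 * (36 * r) ^ 2 ≤ h ^ 2 * ‖g‖ ^ 2 := by gcongr
    have i4 : (35 * r * h) ^ 2 ≤ (det2 p g) ^ 2 := by nlinarith [sq_nonneg (r * h)]
    rw [← sq_abs (det2 p g)] at i4
    exact le_of_sq_le_sq' i4 (abs_nonneg _)
  have F := det_mul_norm_le p g w
  have F2 : 35 * r * h * ‖w‖ ≤ 92 * r * δ := by
    calc 35 * r * h * ‖w‖ ≤ |det2 p g| * ‖w‖ := by gcongr
      _ ≤ |inner ℝ w p| * ‖g‖ + |inner ℝ w g| * ‖p‖ := F
      _ ≤ 2 * δ * (44 * r) + 2 * δ * (2 * r) := by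
          rw [← hpn]
          gcongr
      _ = 92 * r * δ := by ring
  rw [hwn]
  have F3 : r * (35 * (‖w‖ * h)) ≤ r * (92 * δ) := by
    calc r * (35 * (‖w‖ * h)) = 35 * r * h * ‖w‖ := by ring
      _ ≤ 92 * r * δ := F2
      _ = r * (92 * δ) := by ring
  have F4 := le_of_mul_le_mul_left F3 hr
  linarith

end Pool.Agent.TH578.FP
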