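import Pool.Agent.TH578.FP.Planar
import Pool.Agent.H744R2.Falc.MainA2

/-!
Products whose first planar factor has arbitrary dimension.
-/

set_option autoImplicit false

namespace Pool.Agent.TH578.FP

open MeasureTheory Set Metric
open scoped ENNReal
open Pool.Agent.H744R2.Falc

theorem sumD_fro3 (E : ℕ → Set E2) (K : ℕ) (hE : ∀ i < K, IsCompact (E i))
    (a : ℕ → ℝ) (ha0 : 0 ≤ a 0) (ha : ∀ i < K, i ≠ 0 → 1 < a i) (hF : ∀ i < K, Fro (E i) (a i))
    (k : ℕ) (hk : k ≤ K) :
    IsCompact (sumD E k) ∧ ∀ σ : ℝ, 0 ≤ σ → σ < 1 → (σ < thr a k ∨ σ = 0) →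
      Fro (sumD E k) σ := by
  induction k with
  | zero =>
    refine ⟨isCompact_singleton, ?_⟩
    intro σ h0 _ h1
    have h2 : σ = 0 := by
      rcases h1 with h1 | h1
      · rw [thr] at h1; linarith
      · exact h1
    subst h2
    exact fro_zero _ (measurableSet_singleton 0) (singleton_nonempty 0)
  | succ k ih =>
    obtain ⟨hc, ih⟩ := ih (by omega)
    have hEs := hF k (by omega)
    have hEk := hE k (by omega)
    have hcomp : IsCompact (sumD E (k + 1)) := isCompact_addDist' hc hEk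
    refine ⟨hcomp, ?_⟩
    intro σ' h0 h01 h1
    have hne : (sumD E (k + 1)).Nonempty := by
      obtain ⟨u, hu⟩ := (ih 0 le_rfl (by norm_num) (Or.inr rfl)).nonempty
      obtain ⟨x, hx⟩ := hEs.nonempty
      exact ⟨_, u, hu, x, hx, x, hx, rfl⟩
    rcases Nat.eq_zero_or_pos k with rfl | hkpos
    · rcases h1 with h1 | h1
      · rw [thr, thr, zero_add] at h1
        have := fro_addDist (E 0) hEk (a 0) (2 * σ') (by linarith) (by linarith) hEs
        rw [show 2 * σ' / 2 = σ' by ring] at this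
        exact this
      · subst h1
        exact fro_zero _ hcomp.measurableSet hne
    have has := ha k (by omega) (by omega)
    refine (tools2.frost _ hcomp hne σ' h0).resolve_right ?_
    by_cases hlow : 2 * σ' - a k < 0
    · exact tools2.strong _ _ hc hEk 0 (a k) σ' le_rfl has (ih 0 le_rfl (by norm_num) (Or.inr rfl))
        hEs h01 (by linarith)
    · have hσ' : 2 * σ' - a k < thr a k := by
        rcases h1 with h1 | h1
        · rw [thr] at h1; linarith
        · rw [h1] at hlow; exfalso; linarith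
      have hσ'' : 2 * σ' - a k < 1 := by linarith
      obtain ⟨mid, hm1, hm2⟩ := exists_between (lt_min hσ' hσ'')
      have hm3 := lt_of_lt_of_le hm2 (min_le_left _ _)
      have hm4 := lt_of_lt_of_le hm2 (min_le_right _ _)
      have hm0 : 0 ≤ mid := by linarith
      exact tools2.strong _ _ hc hEk mid (a k) σ' hm0 has (ih mid hm0 hm4 (Or.inl hm3)) hEs h01
        (by linarith)

theorem product_pos3
    (E : ℕ → Set E2) (K : ℕ) (hE : ∀ i < K, IsCompact (E i))
    (a : ℕ → ℝ) (ha0 : 0 ≤ a 0) (ha : ∀ i < K, i ≠ 0 → 1 < a i) (hF : ∀ i < K, Fro (E i) (a i))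
    (n : ℕ) (F : Set (EuclideanSpace ℝ (Fin n)))
    (hFc : IsCompact F) (α : ℝ) (hα : (n : ℝ) / 2 < α) (hα2 : (n : ℝ) + 1 < thr a K + 2 * α)
    (hFF : Fro F α) :
    0 < volume (addDist (sumD E K) F) := by
  obtain ⟨hc, h⟩ := sumD_fro3 E K hE a ha0 ha hF K le_rfl
  have hn : (0 : ℝ) ≤ n := Nat.cast_nonneg n
  by_cases hlow : (n : ℝ) + 1 - 2 * α < 0
  · exact positive_step n _ F hc hFc 0 α le_rfl (by norm_num) (by linarith) (by linarith)
      (h 0 le_rfl (by norm_num) (Or.inr rfl)) hFF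
  · have h1 : (n : ℝ) + 1 - 2 * α < thr a K := by linarith
    have h2 : (n : ℝ) + 1 - 2 * α < 1 := by linarith
    obtain ⟨mid, hm1, hm2⟩ := exists_between (lt_min h1 h2)
    have hm3 := lt_of_lt_of_le hm2 (min_le_left _ _)
    have hm4 := lt_of_lt_of_le hm2 (min_le_right _ _)
    have hm0 : 0 ≤ mid := by linarith
    exact positive_step n _ F hc hFc mid α hm0 hm4.le (by linarith) (by linarith)
      (h mid hm0 hm4 (Or.inl hm3)) hFF

theorem thr_mono (a b : ℕ → ℝ) (h : ∀ i, a i ≤ b i) (k : ℕ) : thr a k ≤ thr b k := by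
  induction k with
  | zero => simp [thr]
  | succ k ih => rw [thr, thr]; linarith [h k]

/-- approximating finitely many dimensions from below by real numbers -/
theorem exists_real_below3 (K n : ℕ) (A : Fin K → ℝ≥0∞) (hA : ∀ i : Fin K, (i : ℕ) ≠ 0 → 1 < A i)
    (hA2 : ∀ i, A i ≠ ⊤) (B : ℝ≥0∞) (hB2 : B ≠ ⊤)
    (h1 : (n : ℝ≥0∞) / 2 < B)
    (h2 : (n : ℝ≥0∞) + 1 < ∑ i : Fin K, (1 / 2) ^ (K - (i : ℕ)) * A i + 2 * B) :
    ∃ a : ℕ → ℝ, ∃ α : ℝ, 0 ≤ α ∧ 0 ≤ a 0 ∧
      (∀ i : Fin K, (i : ℕ) ≠ 0 → 1 < a i ∧ ENNReal.ofReal (a i) < A i) ∧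
      (∀ i : Fin K, (i : ℕ) = 0 → a i = 0 ∨ ENNReal.ofReal (a i) < A i) ∧
      (n : ℝ) / 2 < α ∧ (n : ℝ) + 1 < thr a K + 2 * α ∧ ENNReal.ofReal α < B := by
  -- real versions
  set r : ℕ → ℝ := fun i => if h : i < K then (A ⟨i, h⟩).toReal else 2 with hr
  set b : ℝ := B.toReal with hb
  have hr1 : ∀ i, i ≠ 0 → 1 < r i := by
    intro i hi
    rw [hr]
    by_cases h : i < K
    · simp only [h, dite_true]
      rw [← ENNReal.toReal_one]
      exact (ENNReal.toReal_lt_toReal ENNReal.one_ne_top (hA2 _)).2 (hA _ hi)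
    · simp [h]
  have hb1 : (n : ℝ) / 2 < b := by
    have := (ENNReal.toReal_lt_toReal (ne_top_of_lt h1) hB2).2 h1
    rw [ENNReal.toReal_div] at this
    simpa using this
  have hb2 : (n : ℝ) + 1 < thr r K + 2 * b := by
    have hfin : ∀ i : Fin K, (1 / 2 : ℝ≥0∞) ^ (K - (i : ℕ)) * A i ≠ ⊤ := fun i =>
      ENNReal.mul_ne_top (ENNReal.pow_ne_top (ENNReal.div_ne_top (by norm_num) (by norm_num))) (hA2 i)
    have hS : ∑ i : Fin K, (1 / 2 : ℝ≥0∞) ^ (K - (i : ℕ)) * A i ≠ ⊤ :=
      ENNReal.sum_ne_top.2 fun i _ => hfin i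
    have h2B : 2 * B ≠ ⊤ := ENNReal.mul_ne_top (by norm_num) hB2
    have := (ENNReal.toReal_lt_toReal (ne_top_of_lt h2) (ENNReal.add_ne_top.2 ⟨hS, h2B⟩)).2 h2
    rw [ENNReal.toReal_add (ENNReal.natCast_ne_top n) ENNReal.one_ne_top, ENNReal.toReal_add hS h2B,
      ENNReal.toReal_mul, ENNReal.toReal_sum fun i _ => hfin i] at this
    simp only [ENNReal.toReal_natCast, ENNReal.toReal_one, ENNReal.toReal_mul, ENNReal.toReal_pow,
      ENNReal.toReal_div, ENNReal.toReal_ofNat] at this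
    rw [thr_eq, Finset.sum_range]
    convert this using 2
    refine Finset.sum_congr rfl fun i _ => ?_
    rw [hr]
    simp
  -- continuity in a small parameter
  have hcont : ∀ t : ℝ, thr (fun i => r i - t) K = thr r K - (1 - (1 / 2) ^ K) * t := by
    intro t
    have : ∀ k, thr (fun i => r i - t) k = thr r k - (1 - (1 / 2) ^ k) * t := by
      intro k
      induction k with
      | zero => simp [thr]
      | succ k ih => rw [thr, ih, thr, pow_succ]; ring
    exact this K
  obtain ⟨ε, hε, hε1, hε2, hε3⟩ : ∃ ε : ℝ, 0 < ε ∧ (∀ i < K, i ≠ 0 → ε < r i - 1) ∧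
      ε < b - (n : ℝ) / 2 ∧ 3 * ε < thr r K + 2 * b - (n + 1) := by
    have hmin : ∃ m : ℝ, 0 < m ∧ ∀ i < K, i ≠ 0 → m < r i - 1 := by
      rcases Finset.eq_empty_or_nonempty ((Finset.range K).filter (fun i => i ≠ 0)) with h0 | hne
      · refine ⟨1, one_pos, fun i hi hi0 => ?_⟩
        have : i ∈ (Finset.range K).filter (fun i => i ≠ 0) :=
          Finset.mem_filter.2 ⟨Finset.mem_range.2 hi, hi0⟩
        rw [h0] at this
        exact absurd this (by simp)
      · obtain ⟨i₀, hi₀m, hi₀⟩ := Finset.exists_min_image _ r hne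
        have hi₀0 := (Finset.mem_filter.1 hi₀m).2
        refine ⟨(r i₀ - 1) / 2, by linarith [hr1 i₀ hi₀0], fun i hi hi0 => ?_⟩
        have := hi₀ i (Finset.mem_filter.2 ⟨Finset.mem_range.2 hi, hi0⟩)
        linarith [hr1 i₀ hi₀0]
    obtain ⟨m, hm, hm'⟩ := hmin
    refine ⟨min m (min ((b - (n : ℝ) / 2) / 2) ((thr r K + 2 * b - (n + 1)) / 4)), ?_, ?_, ?_, ?_⟩
    · exact lt_min hm (lt_min (by linarith) (by linarith))
    · intro i hi hi0
      exact lt_of_le_of_lt (min_le_left _ _) (hm' i hi hi0)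
    · refine lt_of_le_of_lt ((min_le_right _ _).trans (min_le_left _ _)) (by linarith)
    · have := (min_le_right m (min ((b - (n : ℝ) / 2) / 2) ((thr r K + 2 * b - (n + 1)) / 4))).trans
        (min_le_right _ _)
      have h4 : 0 < thr r K + 2 * b - (n + 1) := by linarith
      linarith
  have hn : (0 : ℝ) ≤ n := Nat.cast_nonneg n
  refine ⟨fun i => if i = 0 then max (r i - ε) 0 else r i - ε, b - ε, by linarith, ?_,
    fun i hi => ⟨?_, ?_⟩, fun i hi => ?_, by linarith, ?_, ?_⟩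
  · simp
  · have := hε1 i i.2 hi
    simp only [hi, if_false]
    linarith
  · simp only [hi, if_false]
    have h5 : r i = (A i).toReal := by rw [hr]; simp
    rw [h5, ENNReal.ofReal_lt_iff_lt_toReal _ (hA2 i)]
    · linarith
    · rw [← h5]; have := hε1 i i.2 hi; linarith
  · simp only [hi, if_true]
    rcases le_or_gt (r 0 - ε) 0 with h | h
    · left
      exact max_eq_right h
    · right
      rw [max_eq_left h.le]
      have h5 : r 0 = (A i).toReal := by
        rw [hr]
        have h0 : 0 < K := by have := i.2; omega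
        simp only [h0, dite_true]
        congr 2
        exact Fin.ext hi.symm
      rw [h5, ENNReal.ofReal_lt_iff_lt_toReal _ (hA2 i)]
      · linarith
      · rw [← h5]; exact h.le
  · have h7 : thr (fun i => r i - ε) K ≤
        thr (fun i => if i = 0 then max (r i - ε) 0 else r i - ε) K := by
      apply thr_mono
      intro i
      by_cases hi : i = 0
      · simp only [hi, if_true]; exact le_max_left _ _
      · simp only [hi, if_false]; exact le_rfl
    rw [hcont] at h7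
    have hp : (0 : ℝ) < (1 / 2 : ℝ) ^ K := by positivity
    have : (1 - (1 / 2 : ℝ) ^ K) * ε ≤ ε := by nlinarith
    linarith
  · rw [ENNReal.ofReal_lt_iff_lt_toReal _ hB2]
    · linarith
    · linarith

theorem main_multi (K n d : ℕ) (e : (Fin K × Fin 2) ⊕ Fin n ≃ Fin d) (E : Fin K → Set E2)
    (F : Set (EuclideanSpace ℝ (Fin n))) (hE : ∀ i, IsCompact (E i))
    (hEne : ∀ i : Fin K, (i : ℕ) = 0 → (E i).Nonempty)
    (hEd : ∀ i : Fin K, (i : ℕ) ≠ 0 → 1 < dimH (E i))
    (hF : IsCompact F) (hFd : (n : ℝ≥0∞) / 2 < dimH F)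
    (hsum : (n : ℝ≥0∞) + 1 < ∑ i : Fin K, (1 / 2) ^ (K - (i : ℕ)) * dimH (E i) + 2 * dimH F) :
    0 < volume (distanceSet (productSet e E F)) := by
  refine volume_distanceSet_pos _ _ (addDist_subset e E F) ?_
  have hdim : ∀ (m : ℕ) (S : Set (EuclideanSpace ℝ (Fin m))), dimH S ≠ ⊤ := by
    intro m S
    refine ne_top_of_le_ne_top ?_ (dimH_mono (subset_univ S))
    rw [Real.dimH_univ_eq_finrank]
    exact ENNReal.natCast_ne_top _
  obtain ⟨a, α, hα0, ha0, ha, ha', hα1, hα2, hα3⟩ := exists_real_below3 K n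
    (fun i => dimH (E i)) hEd (fun i => hdim 2 _) (dimH F) (hdim n F) hFd hsum
  refine product_pos3 _ K ?_ a ha0 ?_ ?_ n F hF α hα1 hα2 (frostman_dimH n F hF α hα0 hα3)
  · intro i hi
    simp only [hi, dite_true]
    exact hE _
  · intro i hi hi0
    exact (ha ⟨i, hi⟩ hi0).1
  · intro i hi
    simp only [hi, dite_true]
    by_cases hi0 : i = 0
    · rcases ha' ⟨i, hi⟩ hi0 with h | h
      · have h' : a i = 0 := h
        rw [h']
        exact fro_zero _ (hE _).measurableSet (hEne _ hi0)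
      · refine frostman_dimH 2 _ (hE _) _ ?_ h
        rw [hi0]; exact ha0
    · have := (ha ⟨i, hi⟩ hi0).1
      exact frostman_dimH 2 _ (hE _) _ (by linarith [this]) (ha ⟨i, hi⟩ hi0).2

end Pool.Agent.TH578.FP
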