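import Pool.Agent.H744R2.Falc.Defs

/-!
Riesz potentials of Frostman measures, and restriction of Frostman measures to small balls.
-/

set_option autoImplicit false

namespace Pool.Agent.TH578.FP

open MeasureTheory Set Metric
open scoped ENNReal
open Pool.Agent.H744R2.Falc

variable {X : Type*} [MetricSpace X] [MeasurableSpace X] [BorelSpace X]

/-- points are null for a Frostman measure of positive exponent -/
theorem point_null (μ : Measure X) (C s : ℝ) (hs : 0 < s)
    (hμ : ∀ (x : X) (r : ℝ), 0 < r → μ (closedBall x r) ≤ ENNReal.ofReal (C * r ^ s)) (x : X) :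
    μ {x} = 0 := by
  have h1 : ∀ n : ℕ, μ {x} ≤ ENNReal.ofReal (C * ((1 / ((n : ℝ) + 1)) ^ s)) := by
    intro n
    refine le_trans (measure_mono ?_) (hμ x (1 / ((n : ℝ) + 1)) (by positivity))
    rw [singleton_subset_iff]; exact mem_closedBall_self (by positivity)
  have h2 : Filter.Tendsto (fun n : ℕ => ENNReal.ofReal (C * ((1 / ((n : ℝ) + 1)) ^ s)))
      Filter.atTop (nhds 0) := by
    have h3 : Filter.Tendsto (fun n : ℕ => C * ((1 / ((n : ℝ) + 1)) ^ s)) Filter.atTop
        (nhds (C * (0 : ℝ) ^ s)) := by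
      apply Filter.Tendsto.const_mul
      exact (tendsto_one_div_add_atTop_nhds_zero_nat).rpow_const (Or.inr hs.le)
    rw [Real.zero_rpow hs.ne', mul_zero] at h3
    have := (ENNReal.continuous_ofReal.tendsto 0).comp h3
    rw [ENNReal.ofReal_zero] at this
    exact this
  exact le_antisymm (ge_of_tendsto' h2 h1) bot_le

/-- Riesz potential of a Frostman measure. -/
theorem riesz_tau (μ : Measure X) [IsProbabilityMeasure μ] (C s τ : ℝ) (hC : 0 < C) (hτ : 0 ≤ τ)
    (hs : τ < s)
    (hμ : ∀ (x : X) (r : ℝ), 0 < r → μ (closedBall x r) ≤ ENNReal.ofReal (C * r ^ s)) :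
    ∃ C2 : ℝ, 0 < C2 ∧ ∀ x : X,
      ∫⁻ z, ENNReal.ofReal ((dist x z) ^ (-τ)) ∂μ ≤ ENNReal.ofReal C2 := by
  set q : ℝ := (2 : ℝ) ^ (-(s - τ)) with hq
  have hq0 : 0 < q := by positivity
  have hq1 : q < 1 := Real.rpow_lt_one_of_one_lt_of_neg (by norm_num) (by linarith)
  have hq2 : 0 < 1 - q := by linarith
  refine ⟨1 + C * (2 : ℝ) ^ τ * (1 - q)⁻¹, by positivity, ?_⟩
  intro x
  set a : ℕ → ℝ := fun i => ((2 : ℝ) ^ (i + 1)) ^ τ with ha
  set B : ℕ → Set X := fun i => closedBall x ((2 : ℝ)⁻¹ ^ i) with hB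
  have hpt : ∀ z, z ≠ x → ENNReal.ofReal ((dist x z) ^ (-τ)) ≤
      1 + ∑' i, (B i).indicator (fun _ => ENNReal.ofReal (a i)) z := by
    intro z hzx
    have ht : 0 < dist x z := dist_pos.mpr (Ne.symm hzx)
    rcases le_or_gt (dist x z) 1 with h1 | h1
    · obtain ⟨i, h3, h4⟩ := exists_nat_pow_near_of_lt_one (x := dist x z) (y := (2 : ℝ)⁻¹)
        ht h1 (by norm_num) (by norm_num)
      refine le_trans ?_ (le_trans (ENNReal.le_tsum i) le_add_self)
      have hzB : z ∈ B i := by
        rw [hB, mem_closedBall, dist_comm]; exact h4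
      rw [indicator_of_mem hzB]
      apply ENNReal.ofReal_le_ofReal
      rw [ha]
      simp only
      rw [Real.rpow_neg ht.le, ← Real.inv_rpow ht.le]
      refine Real.rpow_le_rpow (by positivity) ?_ hτ
      rw [inv_pow] at h3
      rw [inv_le_comm₀ ht (by positivity)]
      exact h3.le
    · refine le_trans ?_ le_self_add
      rw [ENNReal.ofReal_le_one]
      exact Real.rpow_le_one_of_one_le_of_nonpos h1.le (by linarith)
  have hterm : ∀ i, ENNReal.ofReal (a i) * μ (B i) ≤
      ENNReal.ofReal (C * (2 : ℝ) ^ τ * q ^ i) := by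
    intro i
    have h1 := hμ x ((2 : ℝ)⁻¹ ^ i) (by positivity)
    calc ENNReal.ofReal (a i) * μ (B i)
        ≤ ENNReal.ofReal (a i) * ENNReal.ofReal (C * ((2 : ℝ)⁻¹ ^ i) ^ s) := by gcongr
      _ = ENNReal.ofReal (a i * (C * ((2 : ℝ)⁻¹ ^ i) ^ s)) := by
          rw [← ENNReal.ofReal_mul (by positivity)]
      _ = _ := by
          congr 1
          rw [ha]
          simp only
          have e1 : ((2 : ℝ)⁻¹ ^ i) ^ s = (2 : ℝ) ^ (-(s * i)) := by
            rw [inv_pow, Real.inv_rpow (by positivity), ← Real.rpow_natCast,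
              ← Real.rpow_mul (by norm_num), ← Real.rpow_neg (by norm_num)]
            congr 1; ring
          have e2 : ((2 : ℝ) ^ (i + 1)) ^ τ = (2 : ℝ) ^ τ * (2 : ℝ) ^ (τ * i) := by
            rw [← Real.rpow_natCast, ← Real.rpow_mul (by norm_num), ← Real.rpow_add (by norm_num)]
            congr 1; push_cast; ring
          have e3 : q ^ i = (2 : ℝ) ^ (τ * i) * (2 : ℝ) ^ (-(s * i)) := by
            rw [hq, ← Real.rpow_natCast, ← Real.rpow_mul (by norm_num),
              ← Real.rpow_add (by norm_num)]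
            congr 1; ring
          rw [e1, e2, e3]
          ring
  have hx0 : ∀ᵐ z ∂μ, z ≠ x := by
    have := point_null μ C s (by linarith) hμ x
    rw [ae_iff]
    simpa using this
  calc ∫⁻ z, ENNReal.ofReal ((dist x z) ^ (-τ)) ∂μ
      ≤ ∫⁻ z, (1 + ∑' i, (B i).indicator (fun _ => ENNReal.ofReal (a i)) z) ∂μ :=
        lintegral_mono_ae (hx0.mono hpt)
    _ = 1 + ∑' i, ENNReal.ofReal (a i) * μ (B i) := by
        rw [lintegral_add_left measurable_const, lintegral_const, measure_univ, mul_one,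
          lintegral_tsum (fun i => (measurable_const.indicator measurableSet_closedBall).aemeasurable)]
        congr 1
        refine tsum_congr fun i => ?_
        rw [lintegral_indicator_const measurableSet_closedBall]
    _ ≤ 1 + ∑' i, ENNReal.ofReal (C * (2 : ℝ) ^ τ * q ^ i) := by
        gcongr with i
        exact hterm i
    _ = ENNReal.ofReal (1 + C * (2 : ℝ) ^ τ * (1 - q)⁻¹) := by
        rw [ENNReal.ofReal_add (by norm_num) (by positivity), ENNReal.ofReal_one]
        congr 1
        rw [← ENNReal.ofReal_tsum_of_nonneg (fun i => by positivity)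
          ((summable_geometric_of_lt_one hq0.le hq1).mul_left _), tsum_mul_left,
          tsum_geometric_of_lt_one hq0.le hq1]

/-- normalised restriction of a Frostman measure to a set of positive measure -/
theorem restrict_frostman (μ : Measure X) [IsProbabilityMeasure μ] (E A : Set X) (C s : ℝ)
    (hC : 0 < C) (hA : MeasurableSet A) (hE : μ Eᶜ = 0)
    (hμ : ∀ (x : X) (r : ℝ), 0 < r → μ (closedBall x r) ≤ ENNReal.ofReal (C * r ^ s))
    (hpos : μ A ≠ 0) :
    ∃ κ : Measure X, IsProbabilityMeasure κ ∧ κ Eᶜ = 0 ∧ κ Aᶜ = 0 ∧ ∃ C' : ℝ, 0 < C' ∧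
      ∀ (x : X) (r : ℝ), 0 < r → κ (closedBall x r) ≤ ENNReal.ofReal (C' * r ^ s) := by
  have ht : μ A ≠ ⊤ := measure_ne_top μ A
  have hr : 0 < (μ A).toReal := ENNReal.toReal_pos hpos ht
  refine ⟨(μ A)⁻¹ • μ.restrict A, ⟨?_⟩, ?_, ?_, C / (μ A).toReal, by positivity, ?_⟩
  · rw [Measure.smul_apply, Measure.restrict_apply_univ, smul_eq_mul,
      ENNReal.inv_mul_cancel hpos ht]
  · rw [Measure.smul_apply, smul_eq_mul]
    rw [le_antisymm ((Measure.restrict_apply_le A Eᶜ).trans hE.le) bot_le, mul_zero]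
  · rw [Measure.smul_apply, smul_eq_mul, Measure.restrict_apply hA.compl, compl_inter_self,
      measure_empty, mul_zero]
  · intro x r hr0
    rw [Measure.smul_apply, smul_eq_mul]
    calc (μ A)⁻¹ * μ.restrict A (closedBall x r) ≤ (μ A)⁻¹ * ENNReal.ofReal (C * r ^ s) := by
          gcongr
          exact (Measure.restrict_apply_le _ _).trans (hμ x r hr0)
      _ = ENNReal.ofReal (C / (μ A).toReal * r ^ s) := by
          rw [show (μ A)⁻¹ = ENNReal.ofReal ((μ A).toReal)⁻¹ by
            rw [ENNReal.ofReal_inv_of_pos hr, ENNReal.ofReal_toReal ht],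
            ← ENNReal.ofReal_mul (by positivity)]
          congr 1
          ring

end Pool.Agent.TH578.FP
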