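import Pool.Agent.TH578.FP.Geo
import Pool.Agent.TH578.FP.Riesz
import Pool.Agent.H744R2.Falc.Halving
import Pool.Agent.H744R2.Falc.Assembly

/-!
The squared distance set of a planar Frostman set of exponent `s` carries a Frostman measure of
exponent `τ / 2` for every `τ < s`.
-/

set_option autoImplicit false

namespace Pool.Agent.TH578.FP

open MeasureTheory Set Metric
open scoped ENNReal
open Pool.Agent.H744R2.Falc

/-- the part of `A × B` where the squared distance is within `δ` of `ρ` -/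
def annG (A B : Set E2) (ρ δ : ℝ) : Set (E2 × E2) :=
  {p | p.1 ∈ A ∧ p.2 ∈ B ∧ |dist p.1 p.2 ^ 2 - ρ| ≤ δ}

theorem annG_meas {A B : Set E2} (hA : IsClosed A) (hB : IsClosed B) (ρ δ : ℝ) :
    MeasurableSet (annG A B ρ δ) := by
  have h1 : IsClosed {p : E2 × E2 | p.1 ∈ A} := hA.preimage continuous_fst
  have h2 : IsClosed {p : E2 × E2 | p.2 ∈ B} := hB.preimage continuous_snd
  have h3 : IsClosed {p : E2 × E2 | |dist p.1 p.2 ^ 2 - ρ| ≤ δ} :=
    isClosed_le (by fun_prop) continuous_const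
  exact (h1.inter (h2.inter h3)).measurableSet

theorem min_one_le_rpow (u θ : ℝ) (hu : 0 ≤ u) (hθ0 : 0 ≤ θ) (hθ1 : θ ≤ 1) : min 1 u ≤ u ^ θ := by
  rcases le_or_gt 1 u with h | h
  · exact (min_le_left _ _).trans (Real.one_le_rpow h hθ0)
  · refine (min_le_right _ _).trans ?_
    rcases hu.eq_or_lt with rfl | hu'
    · positivity
    · calc u = u ^ (1 : ℝ) := (Real.rpow_one u).symm
        _ ≤ u ^ θ := Real.rpow_le_rpow_of_exponent_ge hu' h.le hθ1

/-- the measure of an annular set -/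
theorem annulus (a b : E2) (r : ℝ) (hr : 0 < r) (hab : dist a b = 20 * r)
    (κ1 κ2 : Measure E2) [IsProbabilityMeasure κ1] [IsProbabilityMeasure κ2] (C1 C2 s τ : ℝ)
    (hC1 : 0 < C1) (hC2 : 0 < C2) (hτ : 0 ≤ τ) (hs : τ < s)
    (h1 : ∀ (x : E2) (r : ℝ), 0 < r → κ1 (closedBall x r) ≤ ENNReal.ofReal (C1 * r ^ s))
    (h2 : ∀ (x : E2) (r : ℝ), 0 < r → κ2 (closedBall x r) ≤ ENNReal.ofReal (C2 * r ^ s)) :
    ∃ C : ℝ, 0 < C ∧ ∀ ρ δ : ℝ, 0 < δ →
      (κ1.prod κ2) (annG (closedBall a r) (closedBall b r) ρ δ) ≤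
        ENNReal.ofReal (C * δ ^ (τ / 2)) := by
  have hs0 : 0 < s := lt_of_le_of_lt hτ hs
  obtain ⟨C3, hC3, hR⟩ := riesz_tau κ2 C2 s τ hC2 hτ hs h2
  set θ : ℝ := τ / s with hθ
  have hθ0 : 0 ≤ θ := by positivity
  have hθ1 : θ ≤ 1 := by rw [hθ, div_le_one hs0]; exact hs.le
  set M : ℝ := C1 ^ θ * 3 ^ τ * C3 with hM
  have hM0 : 0 < M := by positivity
  refine ⟨M ^ ((1 : ℝ) / 2), by positivity, ?_⟩
  intro ρ δ hδ
  set G := annG (closedBall a r) (closedBall b r) ρ δ with hG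
  have hGm : MeasurableSet G := annG_meas isClosed_closedBall isClosed_closedBall ρ δ
  have hfub := hv_fubini κ1 κ2 G hGm
  -- bound of the inner measure
  have hin : ∀ y y' : E2, y ≠ y' → κ1 {z | (z, y) ∈ G ∧ (z, y') ∈ G} ≤
      ENNReal.ofReal (C1 ^ θ * (3 * δ) ^ τ) * ENNReal.ofReal ((dist y y') ^ (-τ)) := by
    intro y y' hyy
    have hd : 0 < dist y y' := dist_pos.mpr hyy
    rw [← ENNReal.ofReal_mul (by positivity)]
    rcases eq_empty_or_nonempty {z | (z, y) ∈ G ∧ (z, y') ∈ G} with he | ⟨z0, hz0⟩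
    · rw [he]; simp
    · have hsub : {z | (z, y) ∈ G ∧ (z, y') ∈ G} ⊆ closedBall z0 (3 * δ / dist y y') := by
        intro z hz
        obtain ⟨⟨p1, p2, p3⟩, ⟨p4, p5, p6⟩⟩ := hz
        obtain ⟨⟨q1, q2, q3⟩, ⟨q4, q5, q6⟩⟩ := hz0
        have := geo a b r hr hab p1 q1 p2 p5 ρ δ hδ.le p3 p6 q3 q6
        rw [mem_closedBall, le_div_iff₀ hd]
        exact this
      have hA : κ1 {z | (z, y) ∈ G ∧ (z, y') ∈ G} ≤
          ENNReal.ofReal (C1 * (3 * δ / dist y y') ^ s) :=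
        (measure_mono hsub).trans (h1 z0 _ (by positivity))
      have hB : κ1 {z | (z, y) ∈ G ∧ (z, y') ∈ G} ≤ ENNReal.ofReal 1 := by
        rw [ENNReal.ofReal_one]; exact prob_le_one
      have hAB : κ1 {z | (z, y) ∈ G ∧ (z, y') ∈ G} ≤
          ENNReal.ofReal (min 1 (C1 * (3 * δ / dist y y') ^ s)) := by
        rcases min_choice (1 : ℝ) (C1 * (3 * δ / dist y y') ^ s) with h | h
        · rw [h]; exact hB
        · rw [h]; exact hA
      refine hAB.trans (ENNReal.ofReal_le_ofReal ?_)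
      refine (min_one_le_rpow _ θ (by positivity) hθ0 hθ1).trans (le_of_eq ?_)
      rw [Real.mul_rpow hC1.le (by positivity), ← Real.rpow_mul (by positivity),
        show s * θ = τ by rw [hθ]; field_simp, Real.div_rpow (by positivity) hd.le,
        Real.rpow_neg hd.le]
      ring
  have hdiag : ∀ᵐ p ∂(κ2.prod κ2), p.1 ≠ p.2 := by
    have hm : MeasurableSet {p : E2 × E2 | p.1 = p.2} :=
      (isClosed_eq continuous_fst continuous_snd).measurableSet
    have : (κ2.prod κ2) {p : E2 × E2 | p.1 = p.2} = 0 := by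
      rw [Measure.prod_apply hm]
      rw [lintegral_eq_zero_iff (measurable_measure_prodMk_left hm)]
      refine Filter.Eventually.of_forall fun x => ?_
      have e : Prod.mk x ⁻¹' {p : E2 × E2 | p.1 = p.2} = {x} := by
        ext z; simp [eq_comm]
      simp only [Pi.zero_apply]
      rw [e]
      exact point_null κ2 C2 s hs0 h2 x
    rw [ae_iff]
    simpa using this
  have hmeas : Measurable fun p : E2 × E2 => ENNReal.ofReal ((dist p.1 p.2) ^ (-τ)) := by
    fun_prop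
  have hP : (κ1.prod κ2) G ^ 2 ≤ ENNReal.ofReal (M * δ ^ τ) := by
    calc (κ1.prod κ2) G ^ 2 ≤ ∫⁻ p, κ1 {z | (z, p.1) ∈ G ∧ (z, p.2) ∈ G} ∂(κ2.prod κ2) := hfub
      _ ≤ ∫⁻ p, ENNReal.ofReal (C1 ^ θ * (3 * δ) ^ τ) *
            ENNReal.ofReal ((dist p.1 p.2) ^ (-τ)) ∂(κ2.prod κ2) :=
          lintegral_mono_ae (hdiag.mono fun p hp => hin p.1 p.2 hp)
      _ = ENNReal.ofReal (C1 ^ θ * (3 * δ) ^ τ) *
            ∫⁻ p, ENNReal.ofReal ((dist p.1 p.2) ^ (-τ)) ∂(κ2.prod κ2) :=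
          lintegral_const_mul _ hmeas
      _ = ENNReal.ofReal (C1 ^ θ * (3 * δ) ^ τ) *
            ∫⁻ x, ∫⁻ z, ENNReal.ofReal ((dist x z) ^ (-τ)) ∂κ2 ∂κ2 := by
          rw [lintegral_prod _ hmeas.aemeasurable]
      _ ≤ ENNReal.ofReal (C1 ^ θ * (3 * δ) ^ τ) * ∫⁻ _x, ENNReal.ofReal C3 ∂κ2 := by
          gcongr with x
          exact hR x
      _ = ENNReal.ofReal (M * δ ^ τ) := by
          rw [lintegral_const, measure_univ, mul_one, ← ENNReal.ofReal_mul (by positivity),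
            Real.mul_rpow (by norm_num) hδ.le, hM]
          congr 1
          ring
  have e : ENNReal.ofReal (M ^ ((1 : ℝ) / 2) * δ ^ (τ / 2)) ^ 2 = ENNReal.ofReal (M * δ ^ τ) := by
    rw [← ENNReal.ofReal_pow (by positivity), mul_pow, ← Real.rpow_natCast,
      ← Real.rpow_natCast (δ ^ (τ / 2)), ← Real.rpow_mul hM0.le, ← Real.rpow_mul hδ.le]
    norm_num
  rw [← e] at hP
  exact (ENNReal.pow_le_pow_left_iff (n := 2) (by norm_num)).1 hP

theorem fro_addDist (E : Set E2) (hE : IsCompact E) (s τ : ℝ) (hτ : 0 ≤ τ) (hs : τ < s)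
    (hF : Fro E s) : Fro (addDist {0} E) (τ / 2) := by
  obtain ⟨μ, hμp, hμE, C, hC, hμ⟩ := hF
  have hs0 : 0 < s := lt_of_le_of_lt hτ hs
  have hEm : MeasurableSet E := hE.measurableSet
  have hE1 : μ E = 1 := (prob_compl_eq_zero_iff hEm).1 hμE
  obtain ⟨a, haE, ha⟩ := exists_mem_forall_mem_nhdsWithin_pos_measure (μ := μ) (s := E)
    (by rw [hE1]; exact one_ne_zero)
  have hE2 : μ (E \ {a}) ≠ 0 := by
    rw [measure_diff_null (point_null μ C s hs0 hμ a), hE1]
    exact one_ne_zero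
  obtain ⟨b, hbE, hb⟩ := exists_mem_forall_mem_nhdsWithin_pos_measure (μ := μ) (s := E \ {a}) hE2
  have hab : 0 < dist a b := dist_pos.mpr (fun h => hbE.2 (by rw [h]; rfl))
  set r : ℝ := dist a b / 20 with hr
  have hr0 : 0 < r := by positivity
  have hab' : dist a b = 20 * r := by rw [hr]; ring
  have hA : μ (closedBall a r) ≠ 0 :=
    (ha _ (mem_nhdsWithin_of_mem_nhds (closedBall_mem_nhds a hr0))).ne'
  have hB : μ (closedBall b r) ≠ 0 :=
    (hb _ (mem_nhdsWithin_of_mem_nhds (closedBall_mem_nhds b hr0))).ne'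
  obtain ⟨κ1, hp1, hE1', hA1, C1, hC1, hf1⟩ := restrict_frostman μ E (closedBall a r) C s hC
    measurableSet_closedBall hμE hμ hA
  obtain ⟨κ2, hp2, hE2', hA2, C2, hC2, hf2⟩ := restrict_frostman μ E (closedBall b r) C s hC
    measurableSet_closedBall hμE hμ hB
  obtain ⟨C3, hC3, hann⟩ := annulus a b r hr0 hab' κ1 κ2 C1 C2 s τ hC1 hC2 hτ hs hf1 hf2
  have hmap : Measurable fun p : E2 × E2 => dist p.1 p.2 ^ 2 := by fun_prop
  have hnull : ∀ S T : Set E2, κ1 Sᶜ = 0 → κ2 Tᶜ = 0 → (κ1.prod κ2) (S ×ˢ T)ᶜ = 0 := by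
    intro S T hS hT
    refine measure_mono_null (t := (Sᶜ ×ˢ univ) ∪ (univ ×ˢ Tᶜ)) ?_ ?_
    · rintro ⟨x, y⟩ h
      simp only [mem_compl_iff, mem_prod, not_and_or] at h
      rcases h with h | h
      · exact Or.inl ⟨h, mem_univ _⟩
      · exact Or.inr ⟨mem_univ _, h⟩
    · rw [measure_union_null_iff]
      constructor
      · rw [Measure.prod_prod, hS, zero_mul]
      · rw [Measure.prod_prod, hT, mul_zero]
  refine ⟨Measure.map (fun p : E2 × E2 => dist p.1 p.2 ^ 2) (κ1.prod κ2),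
    Measure.isProbabilityMeasure_map hmap.aemeasurable, ?_, C3, hC3, ?_⟩
  · have hDm : MeasurableSet (addDist {0} E) :=
      (isCompact_addDist' isCompact_singleton hE).measurableSet
    rw [Measure.map_apply hmap hDm.compl]
    refine measure_mono_null ?_ (hnull E E hE1' hE2')
    rintro ⟨x, y⟩ h1 ⟨h2, h3⟩
    exact h1 ⟨0, rfl, x, h2, y, h3, by simp⟩
  · intro ρ δ hδ
    rw [Measure.map_apply hmap measurableSet_closedBall]
    refine le_trans ?_ (hann ρ δ hδ)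
    have hnull2 := hnull _ _ hA1 hA2
    have : (fun p : E2 × E2 => dist p.1 p.2 ^ 2) ⁻¹' closedBall ρ δ ⊆
        annG (closedBall a r) (closedBall b r) ρ δ ∪ (closedBall a r ×ˢ closedBall b r)ᶜ := by
      rintro ⟨x, y⟩ h
      by_cases hxy : (x, y) ∈ closedBall a r ×ˢ closedBall b r
      · refine Or.inl ⟨hxy.1, hxy.2, ?_⟩
        simpa [Real.dist_eq] using h
      · exact Or.inr hxy
    refine (measure_mono this).trans ((measure_union_le _ _).trans ?_)
    rw [hnull2, add_zero]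

end Pool.Agent.TH578.FP
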